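import Pool.Agent.Helper34.BIC.Tutte

/-!
# Reduction to a tight separation, keeping a minor on one side and a restriction on the other
-/

open Set
open scoped Matroid

namespace BIC

variable {α : Type*}

/-- the order of the separation `(X, E \ X)` is at most `n` -/
def LamLe (M : Matroid α) (X : Set α) (n : ℕ) : Prop :=
  rk M X + rk M (M.E \ X) ≤ n + rk M M.E

lemma minor_dual {M N : Matroid α} (h : N ≤m M) : N✶ ≤m M✶ := by
  obtain ⟨C, D, hC, hD, hCD, rfl⟩ := h.exists_eq_contract_delete_disjoint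
  rw [Matroid.dual_delete, Matroid.dual_contract]
  have : M✶ ＼ C ／ D = M✶ ／ D ＼ C := by
    rw [Matroid.contract_delete_comm M✶ hCD.symm]
  rw [this]
  exact Matroid.contract_delete_isMinor _ _ _

lemma minor_elem {M N : Matroid α} (h : N ≤m M) {e : α} (he : e ∈ M.E) (heN : e ∉ N.E) :
    N ≤m M ／ {e} ∨ N ≤m M ＼ {e} := by
  obtain ⟨C, D, hC, hD, hCD, rfl⟩ := h.exists_eq_contract_delete_disjoint
  rw [Matroid.delete_ground, Matroid.contract_ground] at heN
  have h1 : e ∈ C ∨ e ∈ D := by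
    by_contra hno
    push Not at hno
    exact heN ⟨⟨he, hno.1⟩, hno.2⟩
  rcases h1 with h1 | h1
  · left
    have : M ／ C = M ／ {e} ／ (C \ {e}) := by
      rw [Matroid.contract_contract, union_sdiff_self, union_eq_self_of_subset_left
        (singleton_subset_iff.2 h1)]
    rw [this]
    exact Matroid.contract_delete_isMinor _ _ _
  · right
    have h2 : M ／ C ＼ D = M ＼ {e} ／ C ＼ (D \ {e}) := by
      have h3 : Disjoint C {e} := by
        rw [Set.disjoint_singleton_right]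
        exact fun h => Set.disjoint_left.1 hCD h h1
      rw [← Matroid.contract_delete_comm M h3, Matroid.delete_delete, union_sdiff_self,
        union_eq_self_of_subset_left (singleton_subset_iff.2 h1)]
    rw [h2]
    exact Matroid.contract_delete_isMinor _ _ _


lemma KGe.symm {M : Matroid α} {S T : Set α} {n : ℕ} (h : KGe M S T n) (hS : S ⊆ M.E) :
    KGe M T S n := by
  intro X hTX hXS
  have h1 := h (M.E \ X) (fun s hs => ⟨hS hs, fun hx => (hXS hx).2 hs⟩)
    (fun s hs => ⟨hs.1, fun ht => hs.2 (hTX ht)⟩)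
  rw [sdiff_sdiff_cancel_left (hXS.trans sdiff_subset)] at h1
  omega

section step

variable {M : Matroid α} [M.Finite] {R T Y : Set α} {e : α} {κ : ℕ}

/-- a smallest tight set: deleting an element of it outside `T` keeps `κ` -/
lemma del_keeps (hK : KGe M T R κ) (hY : T ⊆ Y) (hY' : Y ⊆ M.E \ R) (hYl : LamLe M Y κ)
    (hmin : ∀ Y', T ⊆ Y' → Y' ⊂ Y → ¬ LamLe M Y' κ) (he : e ∈ Y) :
    KGe (M ＼ {e}) T R κ := by
  intro X hTX hXR
  rw [Matroid.delete_ground] at hXR ⊢
  have hXE : X ⊆ M.E \ {e} := hXR.trans sdiff_subset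
  have heE : e ∈ M.E := (hY' he).1
  rw [rk_delete (subset_refl _), rk_delete hXE, rk_delete sdiff_subset]
  by_contra hno
  push Not at hno
  have heX : e ∉ X := fun h => (hXE h).2 rfl
  have s1 := rk_submod M Y X
  have s2 := rk_submod M (M.E \ Y) ((M.E \ {e}) \ X)
  have t1 : (M.E \ Y) ∩ ((M.E \ {e}) \ X) = M.E \ (Y ∪ X) := by
    ext x
    simp only [mem_inter_iff, mem_sdiff, mem_union, mem_singleton_iff]
    constructor
    · rintro ⟨⟨a, b⟩, ⟨_, c⟩, d⟩
      exact ⟨a, fun h => h.elim b d⟩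
    · rintro ⟨a, b⟩
      exact ⟨⟨a, fun h => b (Or.inl h)⟩, ⟨a, fun h => b (Or.inl (h ▸ he))⟩, fun h => b (Or.inr h)⟩
  have t2 : (M.E \ Y) ∪ ((M.E \ {e}) \ X) = (M.E \ (Y ∩ X)) \ {e} := by
    ext x
    simp only [mem_inter_iff, mem_sdiff, mem_union, mem_singleton_iff]
    constructor
    · rintro (⟨a, b⟩ | ⟨⟨a, b⟩, c⟩)
      · exact ⟨⟨a, fun h => b h.1⟩, fun h => b (h ▸ he)⟩
      · exact ⟨⟨a, fun h => c h.2⟩, b⟩
    · rintro ⟨⟨a, b⟩, c⟩
      by_cases hx : x ∈ Y
      · exact Or.inr ⟨⟨a, c⟩, fun h => b ⟨hx, h⟩⟩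
      · exact Or.inl ⟨a, hx⟩
  rw [t1, t2] at s2
  have k1 := hK (Y ∪ X) (hY.trans subset_union_left) (by
    rintro x (hx | hx)
    · exact hY' hx
    · exact ⟨(hXE hx).1, (hXR hx).2⟩)
  have k2 : ¬ LamLe M (Y ∩ X) κ := by
    refine hmin (Y ∩ X) (subset_inter hY hTX) ⟨inter_subset_left, fun h => heX (h he).2⟩
  unfold LamLe at hYl k2
  have m1 : rk M (M.E \ (Y ∩ X)) ≤ rk M ((M.E \ (Y ∩ X)) \ {e}) + 1 := by
    have h := rk_union_le M (X := (M.E \ (Y ∩ X)) \ {e}) (Y := {e}) (finite_singleton e)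
    rw [Set.ncard_singleton] at h
    exact (rk_mono M (by
      intro x hx
      by_cases hxe : x = e
      · exact Or.inr hxe
      · exact Or.inl ⟨hx, hxe⟩)).trans h
  have m2 : rk M (M.E \ {e}) ≤ rk M M.E := rk_mono M sdiff_subset
  omega

/-- the same for contraction -/
lemma con_keeps (hK : KGe M T R κ) (hY : T ⊆ Y) (hY' : Y ⊆ M.E \ R) (hYl : LamLe M Y κ)
    (hmin : ∀ Y', T ⊆ Y' → Y' ⊂ Y → ¬ LamLe M Y' κ) (he : e ∈ Y) :
    KGe (M ／ {e}) T R κ := by
  have heE : e ∈ M.E := (hY' he).1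
  by_cases hl : M.IsLoop e
  · rw [M.contract_eq_delete_of_subset_loops (singleton_subset_iff.2 hl)]
    exact del_keeps hK hY hY' hYl hmin he
  have hnl : M.IsNonloop e := ⟨hl, heE⟩
  intro X hTX hXR
  rw [Matroid.contract_ground] at hXR ⊢
  have hXE : X ⊆ M.E \ {e} := hXR.trans sdiff_subset
  have heX : e ∉ X := fun h => (hXE h).2 rfl
  have y1 := rk_contract hnl (subset_refl (M.E \ {e}))
  have y2 := rk_contract hnl hXE
  have y3 := rk_contract hnl (show (M.E \ {e}) \ X ⊆ M.E \ {e} from sdiff_subset)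
  have z1 : insert e (M.E \ {e}) = M.E := by
    rw [insert_sdiff_singleton, insert_eq_of_mem heE]
  have z2 : insert e ((M.E \ {e}) \ X) = M.E \ X := by
    ext x
    simp only [mem_insert_iff, mem_sdiff, mem_singleton_iff]
    constructor
    · rintro (rfl | ⟨⟨a, b⟩, c⟩)
      · exact ⟨heE, heX⟩
      · exact ⟨a, c⟩
    · rintro ⟨a, b⟩
      by_cases hx : x = e
      · exact Or.inl hx
      · exact Or.inr ⟨⟨a, hx⟩, b⟩
  rw [z1] at y1
  rw [z2] at y3
  by_contra hno
  push Not at hno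
  have s1 := rk_submod M Y (insert e X)
  have s2 := rk_submod M (M.E \ Y) (M.E \ X)
  have t1 : Y ∩ insert e X = insert e (Y ∩ X) := by
    ext x
    simp only [mem_inter_iff, mem_insert_iff]
    constructor
    · rintro ⟨a, b⟩
      tauto
    · rintro (rfl | ⟨a, b⟩)
      · exact ⟨he, Or.inl rfl⟩
      · exact ⟨a, Or.inr b⟩
  have t2 : Y ∪ insert e X = Y ∪ X := by
    ext x
    simp only [mem_union, mem_insert_iff]
    constructor
    · rintro (a | rfl | a)
      · exact Or.inl a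
      · exact Or.inl he
      · exact Or.inr a
    · rintro (a | a)
      · exact Or.inl a
      · exact Or.inr (Or.inr a)
  have t3 : (M.E \ Y) ∩ (M.E \ X) = M.E \ (Y ∪ X) := by
    ext x
    simp only [mem_inter_iff, mem_sdiff, mem_union]
    tauto
  have t4 : (M.E \ Y) ∪ (M.E \ X) = M.E \ (Y ∩ X) := by
    ext x
    simp only [mem_inter_iff, mem_sdiff, mem_union]
    tauto
  rw [t1, t2] at s1
  rw [t3, t4] at s2
  have k1 := hK (Y ∪ X) (hY.trans subset_union_left) (by
    rintro x (hx | hx)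
    · exact hY' hx
    · exact ⟨(hXE hx).1, (hXR hx).2⟩)
  have k2 : ¬ LamLe M (Y ∩ X) κ := by
    refine hmin (Y ∩ X) (subset_inter hY hTX) ⟨inter_subset_left, fun h => heX (h he).2⟩
  unfold LamLe at hYl k2
  have m1 : rk M (Y ∩ X) ≤ rk M (insert e (Y ∩ X)) := rk_mono M (subset_insert _ _)
  omega

/-- an element of a smallest tight set outside `T` is not spanned by the other side -/
lemma notMem_closure (hY' : Y ⊆ M.E \ R) (hY : T ⊆ Y) (hYl : LamLe M Y κ)
    (hmin : ∀ Y', T ⊆ Y' → Y' ⊂ Y → ¬ LamLe M Y' κ) (he : e ∈ Y) (heT : e ∉ T) :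
    e ∉ M.closure (M.E \ Y) := by
  intro hcl
  have heE : e ∈ M.E := (hY' he).1
  refine hmin (Y \ {e}) (fun t ht => ⟨hY ht, fun h => heT (h ▸ ht)⟩)
    ⟨sdiff_subset, fun h => (h he).2 rfl⟩ ?_
  unfold LamLe at hYl ⊢
  have h1 : rk M (Y \ {e}) ≤ rk M Y := rk_mono M sdiff_subset
  have h2 : M.E \ (Y \ {e}) = insert e (M.E \ Y) := by
    ext x
    simp only [mem_sdiff, mem_insert_iff, mem_singleton_iff]
    constructor
    · rintro ⟨a, b⟩
      by_cases hx : x = e
      · exact Or.inl hx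
      · exact Or.inr ⟨a, fun h => b ⟨h, hx⟩⟩
    · rintro (rfl | ⟨a, b⟩)
      · exact ⟨heE, fun h => h.2 rfl⟩
      · exact ⟨a, fun h => b h.1⟩
  have h3 : rk M (insert e (M.E \ Y)) = rk M (M.E \ Y) := by
    rw [← rk_closure, Matroid.closure_insert_eq_of_mem_closure hcl, rk_closure]
  rw [h2, h3]
  omega

end step

/-- **Reduction.** `R` is kept as a restriction, `N` (on `T`) as a minor, and the order of the
separation of `T` itself becomes `κ(R,T)`. -/
theorem red {R T : Set α} {κ : ℕ} :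
    ∀ (d : ℕ) (M : Matroid α) [M.Finite], R ⊆ M.E → (M.E \ T).ncard = d →
    ∀ N : Matroid α, N ≤m M → N.E = T → KGe M R T κ →
    (∃ Y, T ⊆ Y ∧ Y ⊆ M.E \ R ∧ LamLe M Y κ) →
    ∃ M' : Matroid α, M' ≤m M ∧ R ⊆ M'.E ∧ M' ↾ R = M ↾ R ∧ N ≤m M' ∧ KGe M' R T κ ∧
      LamLe M' T κ := by
  intro d
  induction d with
  | zero =>
    intro M _ hR hd N hN hNT hK hex
    obtain ⟨Y, hY1, hY2, hY3⟩ := hex
    refine ⟨M, Matroid.IsMinor.refl, hR, rfl, hN, hK, ?_⟩
    have hf : (M.E \ T).Finite := M.ground_finite.subset sdiff_subset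
    rw [Set.ncard_eq_zero hf, sdiff_eq_empty] at hd
    have : Y = T := Subset.antisymm ((hY2.trans sdiff_subset).trans hd) hY1
    rwa [this] at hY3
  | succ d ih =>
    intro M _ hR hd N hN hNT hK hex
    have hT : T ⊆ M.E := hNT ▸ hN.subset
    -- a smallest tight set
    obtain ⟨Y, hYm⟩ : ∃ Y, Minimal (fun Y => T ⊆ Y ∧ Y ⊆ M.E \ R ∧ LamLe M Y κ) Y := by
      obtain ⟨Y₀, h0⟩ := hex
      have hfin : {Y : Set α | Y ⊆ M.E}.Finite := M.ground_finite.finite_subsets
      have hfin2 : {Y | T ⊆ Y ∧ Y ⊆ M.E \ R ∧ LamLe M Y κ}.Finite :=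
        hfin.subset (fun Y hY => hY.2.1.trans sdiff_subset)
      obtain ⟨Y, -, hY⟩ := hfin2.exists_le_minimal (a := Y₀) h0
      exact ⟨Y, hY⟩
    obtain ⟨hY1, hY2, hY3⟩ := hYm.prop
    have hmin : ∀ Y', T ⊆ Y' → Y' ⊂ Y → ¬ LamLe M Y' κ := by
      intro Y' a b c
      exact b.2 (hYm.le_of_le ⟨a, b.1.trans hY2, c⟩ b.1)
    by_cases hYT : Y ⊆ T
    · refine ⟨M, Matroid.IsMinor.refl, hR, rfl, hN, hK, ?_⟩
      have : Y = T := Subset.antisymm hYT hY1
      rwa [this] at hY3
    · obtain ⟨e, heY, heT⟩ := not_subset.1 hYT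
      have heE : e ∈ M.E := (hY2 heY).1
      have heR : e ∉ R := (hY2 heY).2
      have heN : e ∉ N.E := hNT ▸ heT
      have hR' : R ⊆ M.E \ {e} := fun s hs => ⟨hR hs, fun h => heR (h ▸ hs)⟩
      have hT' : T ⊆ M.E \ {e} := fun s hs => ⟨hT hs, fun h => heT (h ▸ hs)⟩
      have hcl := notMem_closure hY2 hY1 hY3 hmin heY heT
      have hRY : R ⊆ M.E \ Y := fun r hr => ⟨hR hr, fun hy => (hY2 hy).2 hr⟩
      have hclR : e ∉ M.closure R := fun h => hcl (M.closure_subset_closure hRY h)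
      have hK' := hK.symm hR
      have hcount : ((M.E \ {e}) \ T).ncard = d := by
        have : (M.E \ {e}) \ T = (M.E \ T) \ {e} := by
          ext x; simp only [mem_sdiff]; tauto
        rw [this, Set.ncard_sdiff_singleton_of_mem (show e ∈ M.E \ T from ⟨heE, heT⟩), hd]
        omega
      have hYe1 : T ⊆ Y \ {e} := fun t ht => ⟨hY1 ht, fun h => heT (h ▸ ht)⟩
      have hYe2 : Y \ {e} ⊆ (M.E \ {e}) \ R := fun x hx => ⟨⟨(hY2 hx.1).1, hx.2⟩, (hY2 hx.1).2⟩
      have hYe3 : (M.E \ {e}) \ (Y \ {e}) = M.E \ Y := by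
        ext x
        simp only [mem_sdiff, mem_singleton_iff]
        constructor
        · rintro ⟨⟨a, b⟩, c⟩
          exact ⟨a, fun h => c ⟨h, b⟩⟩
        · rintro ⟨a, b⟩
          exact ⟨⟨a, fun h => b (h ▸ heY)⟩, fun h => b h.1⟩
      have hYE : M.E \ Y ⊆ M.E \ {e} := fun x hx => ⟨hx.1, fun h => hx.2 (h ▸ heY)⟩
      rcases minor_elem hN heE heN with h1 | h1
      · -- contraction
        have hfin : (M ／ {e}).Finite := ⟨M.ground_finite.subset sdiff_subset⟩
        have hnl : M.IsNonloop e := by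
          refine ⟨?_, heE⟩
          intro hl
          exact hcl (M.closure_subset_closure (empty_subset _) (show e ∈ M.closure ∅ from hl))
        have hk := (con_keeps hK' hY1 hY2 hY3 hmin heY).symm hT'
        have hl : LamLe (M ／ {e}) (Y \ {e}) κ := by
          unfold LamLe at hY3 ⊢
          rw [Matroid.contract_ground, hYe3]
          have y1 := rk_contract hnl (subset_refl (M.E \ {e}))
          have y2 := rk_contract hnl (show Y \ {e} ⊆ M.E \ {e} from
            fun x hx => ⟨(hY2 hx.1).1, hx.2⟩)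
          have y3 := rk_contract hnl hYE
          rw [insert_sdiff_singleton, insert_eq_of_mem heE] at y1
          rw [insert_sdiff_singleton, insert_eq_of_mem heY] at y2
          have y4 : rk M (insert e (M.E \ Y)) ≤ rk M (M.E \ Y) + 1 := by
            have h := rk_union_le M (X := M.E \ Y) (Y := {e}) (finite_singleton e)
            rwa [Set.ncard_singleton, union_singleton] at h
          omega
        obtain ⟨M', a, b, c, g, f, i⟩ := ih (M ／ {e}) hR' hcount N h1 hNT hk ⟨Y \ {e}, hYe1, hYe2, hl⟩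
        refine ⟨M', a.trans ?_, b, c.trans (contract_restrict heE hclR hR), g, f, i⟩
        have := Matroid.contract_delete_isMinor M {e} ∅
        rwa [Matroid.delete_empty] at this
      · have hfin : (M ＼ {e}).Finite := ⟨M.ground_finite.subset sdiff_subset⟩
        have hk := (del_keeps hK' hY1 hY2 hY3 hmin heY).symm hT'
        have hl : LamLe (M ＼ {e}) (Y \ {e}) κ := by
          unfold LamLe at hY3 ⊢
          rw [Matroid.delete_ground, hYe3, rk_delete (subset_refl _), rk_delete hYE,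
            rk_delete (show Y \ {e} ⊆ M.E \ {e} from fun x hx => ⟨(hY2 hx.1).1, hx.2⟩)]
          -- `e` is not spanned by `E \ Y`; compare the marginal ranks
          have s := rk_submod M Y (M.E \ {e})
          have s1 : Y ∩ (M.E \ {e}) = Y \ {e} := by
            ext x
            simp only [mem_inter_iff, mem_sdiff, mem_singleton_iff]
            constructor
            · rintro ⟨a, b, c⟩; exact ⟨a, c⟩
            · rintro ⟨a, b⟩; exact ⟨a, (hY2 a).1, b⟩
          have s2 : Y ∪ (M.E \ {e}) = M.E := by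
            ext x
            simp only [mem_union, mem_sdiff, mem_singleton_iff]
            constructor
            · rintro (a | a)
              · exact (hY2 a).1
              · exact a.1
            · intro a
              by_cases hx : x = e
              · exact Or.inl (hx ▸ heY)
              · exact Or.inr ⟨a, hx⟩
          rw [s1, s2] at s
          omega
        obtain ⟨M', a, b, c, g, f, i⟩ := ih (M ＼ {e}) hR' hcount N h1 hNT hk ⟨Y \ {e}, hYe1, hYe2, hl⟩
        refine ⟨M', a.trans ?_, b, c.trans (delete_restrict heR hR), g, f, i⟩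
        have := Matroid.contract_delete_isMinor M ∅ {e}
        rwa [Matroid.contract_empty] at this

/-- the same, with the minor on `Z` given as `(M✶ ／ D₂) ↾ Z` -/
theorem fixset {M : Matroid α} [M.Finite] {X Z D₂ : Set α} {b : ℕ} (hX : X ⊆ M.E) (hZ : Z ⊆ M.E)
    (hXZ : Disjoint X Z) (hD : D₂ ⊆ M.E \ Z) (hK : KGe M X Z b) (hK' : ¬ KGe M X Z (b + 1)) :
    ∃ (M' : Matroid α) (D₂' : Set α), M' ≤m M ∧ M'.Finite ∧ X ⊆ M'.E ∧ Z ⊆ M'.E ∧
      D₂' ⊆ M'.E \ Z ∧ M' ↾ X = M ↾ X ∧ rk M' Z + rk M' (M'.E \ Z) = rk M' M'.E + b ∧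
      KGe M' X Z b ∧ (M'✶ ／ D₂') ↾ Z = (M✶ ／ D₂) ↾ Z := by
  have hNm : ((M✶ ／ D₂) ↾ Z) ≤m M✶ := by
    have h0 : Z ⊆ (M✶ ／ D₂).E := fun z hz => ⟨hZ hz, fun h => (hD h).2 hz⟩
    have h1 : (M✶ ／ D₂) ↾ Z = M✶ ／ D₂ ＼ ((M✶ ／ D₂).E \ Z) := by
      rw [Matroid.delete_compl h0]
    rw [h1]
    exact Matroid.contract_delete_isMinor _ _ _
  have hN : ((M✶ ／ D₂) ↾ Z)✶ ≤m M := by
    have := minor_dual hNm
    rwa [Matroid.dual_dual] at this
  have hNE : ((M✶ ／ D₂) ↾ Z)✶.E = Z := rfl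
  have hex : ∃ Y, Z ⊆ Y ∧ Y ⊆ M.E \ X ∧ LamLe M Y b := by
    unfold KGe at hK'
    push Not at hK'
    obtain ⟨Y, h1, h2, h3⟩ := hK'
    refine ⟨M.E \ Y, fun z hz => ⟨hZ hz, fun h => (h2 h).2 hz⟩,
      fun y hy => ⟨hy.1, fun h => hy.2 (h1 h)⟩, ?_⟩
    unfold LamLe
    rw [sdiff_sdiff_cancel_left (h2.trans sdiff_subset)]
    omega
  obtain ⟨M', a, b', c, d, e, f⟩ := red _ M hX rfl _ hN hNE hK hex
  have hfin : M'.Finite := ⟨M.ground_finite.subset a.subset⟩
  have hZ' : Z ⊆ M'.E := by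
    have := d.subset
    rwa [hNE] at this
  have hd : ((M✶ ／ D₂) ↾ Z) ≤m M'✶ := by
    have := minor_dual d
    rwa [Matroid.dual_dual] at this
  obtain ⟨C, D, h1, h2, h3, h4⟩ := hd.exists_eq_contract_delete_disjoint
  have hE : Z = (M'.E \ C) \ D := by
    have := congrArg Matroid.E h4
    simpa using this
  refine ⟨M', C, a, hfin, b', hZ', ?_, c, ?_, e, ?_⟩
  · intro x hx
    refine ⟨h1 hx, fun h => ?_⟩
    rw [hE] at h
    exact h.1.2 hx
  · have h5 := e.symm b' Z (subset_refl _) (fun z hz => ⟨hZ' hz, fun h =>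
      Set.disjoint_left.1 hXZ h hz⟩)
    unfold LamLe at f
    omega
  · rw [h4, Matroid.delete_eq_restrict, Matroid.contract_ground, Matroid.dual_ground, ← hE]

end BIC
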