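import Pool.Agent.BICS.Base

/-!
# Continuity of the connectivity under the contraction of single elements
-/

open Set
open scoped Matroid

namespace BIC

variable {α : Type*}

lemma rk_single_le {M : Matroid α} [M.Finite] (e : α) : rk M {e} ≤ 1 := by
  have := rk_le_ncard M (Set.finite_singleton e)
  rwa [Set.ncard_singleton] at this

/-- Contracting one element lowers the connectivity by at most one. -/
theorem kge_con {M : Matroid α} [M.Finite] {X Y : Set α} {n : ℕ} {e : α}
    (he : e ∈ M.E \ (X ∪ Y)) (hK : KGe M X Y (n + 1)) : KGe (M ／ {e}) X Y n := by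
  intro A hXA hAY
  rw [Matroid.contract_ground] at hAY ⊢
  have hAE : A ⊆ M.E \ {e} := fun a ha => (hAY ha).1
  have h1 := BICS.rk_contract_set (M := M) (C := {e}) (X := A) (singleton_subset_iff.2 he.1) hAE
  have h2 := BICS.rk_contract_set (M := M) (C := {e}) (X := (M.E \ {e}) \ A)
    (singleton_subset_iff.2 he.1) sdiff_subset
  have h3 := BICS.rk_contract_set (M := M) (C := {e}) (X := M.E \ {e})
    (singleton_subset_iff.2 he.1) (Subset.refl _)
  have e2 : (M.E \ {e}) \ A ∪ {e} = M.E \ A := by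
    ext x
    simp only [mem_union, mem_sdiff, mem_singleton_iff]
    constructor
    · rintro (⟨⟨h4, _⟩, h5⟩ | rfl)
      · exact ⟨h4, h5⟩
      · exact ⟨he.1, fun h => (hAE h).2 rfl⟩
    · rintro ⟨h4, h5⟩
      by_cases hx : x = e
      · exact Or.inr hx
      · exact Or.inl ⟨⟨h4, hx⟩, h5⟩
  have e3 : M.E \ {e} ∪ {e} = M.E := by
    rw [sdiff_union_self, union_eq_left]
    exact singleton_subset_iff.2 he.1
  rw [e2] at h2
  rw [e3] at h3
  have h4 := rk_mono M (show A ⊆ A ∪ {e} from subset_union_left)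
  have h5 := rk_single_le (M := M) e
  have h6 := hK A hXA (fun a ha => ⟨(hAE ha).1, (hAY ha).2⟩)
  omega

/-- Deleting one element lowers the connectivity by at most one. -/
theorem kge_del {M : Matroid α} [M.Finite] {X Y : Set α} {n : ℕ} {e : α} (hX : X ⊆ M.E)
    (hY : Y ⊆ M.E) (he : e ∈ M.E \ (X ∪ Y)) (hK : KGe M X Y (n + 1)) : KGe (M ＼ {e}) X Y n := by
  have h1 : KGe (M✶ ／ {e}) Y X n := by
    refine kge_con ?_ (hK.dual hX)
    rw [union_comm]
    exact he
  have hfin : (M✶ ／ {e}).Finite := ⟨M✶.ground_finite.subset sdiff_subset⟩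
  have h2 := h1.dual (by
    intro y hy
    exact ⟨hY hy, fun h => he.2 (Or.inr (h ▸ hy))⟩)
  rwa [Matroid.dual_contract, Matroid.dual_dual] at h2

/-- Unit steps: contracting the elements of `P` one by one, the connectivity either takes the
value `K` on the way or is at least `K + 1` at the end. -/
theorem cont {M : Matroid α} [M.Finite] {X Y P : Set α} {K : ℕ}
    (_hX : X ⊆ M.E) (_hY : Y ⊆ M.E) (_hXY : Disjoint X Y) (hP : P ⊆ M.E \ (X ∪ Y))
    (hK : KGe M X Y K) :
    (∃ P' ⊆ P, KGe (M ／ P') X Y K ∧ ¬ KGe (M ／ P') X Y (K + 1)) ∨ KGe (M ／ P) X Y (K + 1) := by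
  classical
  have hPf : P.Finite := M.ground_finite.subset (hP.trans sdiff_subset)
  induction P, hPf using Set.Finite.induction_on with
  | empty =>
    by_cases h : KGe M X Y (K + 1)
    · right
      rwa [Matroid.contract_empty]
    · left
      refine ⟨∅, Subset.refl _, ?_, ?_⟩ <;> rwa [Matroid.contract_empty]
  | @insert e P he hPf ih =>
    have hP1 : P ⊆ M.E \ (X ∪ Y) := fun a ha => hP (mem_insert_of_mem _ ha)
    have he1 : e ∈ M.E \ (X ∪ Y) := hP (mem_insert _ _)
    rcases ih hP1 with ⟨P', h1, h2⟩ | h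
    · exact Or.inl ⟨P', h1.trans (subset_insert _ _), h2⟩
    · have hfin : (M ／ P).Finite := ⟨M.ground_finite.subset sdiff_subset⟩
      have h3 : KGe (M ／ P ／ {e}) X Y K := by
        refine kge_con ⟨⟨he1.1, he⟩, he1.2⟩ h
      rw [Matroid.contract_contract, union_singleton] at h3
      by_cases h4 : KGe (M ／ insert e P) X Y (K + 1)
      · exact Or.inr h4
      · exact Or.inl ⟨insert e P, Subset.refl _, h3, h4⟩

end BIC
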