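import Pool.Agent.BICS.Conv
import Pool.Agent.BICS.RkRect
import Pool.Agent.Helper57.TB.Red

/-!
# From the graph `G_n^+` to the plain grid
-/

open Set BIC
open scoped Matroid

namespace BICS

universe u

section general

variable {α : Type*} {M : Matroid α}

/-- The connectivity function of a minor is at most that of the matroid. -/
theorem lam_minor [M.Finite] {C D X : Set α} (hC : C ⊆ M.E) (hX : X ⊆ M.E) :
    rk (M ／ C ＼ D) (X \ (C ∪ D)) + rk (M ／ C ＼ D) ((M.E \ (C ∪ D)) \ X) + rk M M.E ≤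
      rk (M ／ C ＼ D) (M.E \ (C ∪ D)) + rk M X + rk M (M.E \ X) := by
  have h1 := rk_minor (M := M) (C := C) (D := D) (X := X \ (C ∪ D)) hC
    (fun x hx => ⟨hX hx.1, hx.2⟩)
  have h2 := rk_minor (M := M) (C := C) (D := D) (X := (M.E \ (C ∪ D)) \ X) hC
    (fun x hx => hx.1)
  have h3 := rk_minor (M := M) (C := C) (D := D) (X := M.E \ (C ∪ D)) hC
    (fun x hx => hx)
  set A := X \ (C ∪ D) with hA
  set B := (M.E \ (C ∪ D)) \ X with hB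
  set E' := M.E \ (C ∪ D) with hE'
  -- the two halves of `C`
  have s1 := rk_submod M (A ∪ C ∩ X) C
  have s2 := rk_submod M (B ∪ C \ X) C
  have s3 := rk_submod M (C ∩ X) (C \ X)
  have e3 : C ∩ X ∪ C \ X = C := inter_union_sdiff C X
  rw [e3] at s3
  have m1 : rk M (C ∩ X) ≤ rk M ((A ∪ C ∩ X) ∩ C) :=
    rk_mono M (fun x hx => ⟨Or.inr hx, hx.1⟩)
  have m2 : rk M (C \ X) ≤ rk M ((B ∪ C \ X) ∩ C) :=
    rk_mono M (fun x hx => ⟨Or.inr hx, hx.1⟩)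
  have m3 : rk M (A ∪ C) ≤ rk M (A ∪ C ∩ X ∪ C) :=
    rk_mono M (union_subset_union_left _ subset_union_left)
  have m4 : rk M (B ∪ C) ≤ rk M (B ∪ C \ X ∪ C) :=
    rk_mono M (union_subset_union_left _ subset_union_left)
  -- the restriction to `E' ∪ C`
  have s4 := rk_submod M X (E' ∪ C)
  have s5 := rk_submod M (X ∪ (E' ∪ C)) (M.E \ X)
  have m5 : rk M (A ∪ C ∩ X) ≤ rk M (X ∩ (E' ∪ C)) := by
    refine rk_mono M ?_
    rintro x (⟨hx, hx'⟩ | ⟨hx, hx'⟩)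
    · exact ⟨hx, Or.inl ⟨hX hx, hx'⟩⟩
    · exact ⟨hx', Or.inr hx⟩
  have m6 : rk M (B ∪ C \ X) ≤ rk M ((X ∪ (E' ∪ C)) ∩ (M.E \ X)) := by
    refine rk_mono M ?_
    rintro x (⟨hx, hx'⟩ | ⟨hx, hx'⟩)
    · exact ⟨Or.inr (Or.inl hx), hx.1, hx'⟩
    · exact ⟨Or.inr (Or.inr hx), hC hx, hx'⟩
  have m7 : rk M M.E ≤ rk M (X ∪ (E' ∪ C) ∪ M.E \ X) := by
    refine rk_mono M ?_
    intro x hx
    by_cases h : x ∈ X
    · exact Or.inl (Or.inl h)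
    · exact Or.inr ⟨hx, h⟩
  omega

/-- The apex star costs a factor two. -/
theorem star1 {n : ℕ} (hn : 2 ≤ n) [M.Finite] {C D : Set α} (hC : C ⊆ M.E)
    (h : IsBicircular (M ／ C ＼ D) (GPlus n)) :
    ∃ (S : Set α) (ends : α → Sym2 (ℕ × ℕ)), S ⊆ M.E \ (C ∪ D) ∧ Bic (M ／ C) S ends ∧
      Grd S ends 0 0 n n ∧ ∀ (Q : Set α) (n' : ℕ), Disjoint (M.E \ (C ∪ D)) Q →
        KGe M (M.E \ (C ∪ D)) Q (2 * n') → KGe M S Q n' := by
  have hfC : (M ／ C).Finite := ⟨M.ground_finite.subset sdiff_subset⟩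
  have hf : (M ／ C ＼ D).Finite := ⟨M.ground_finite.subset (sdiff_subset.trans sdiff_subset)⟩
  have hgr : (M ／ C ＼ D).E = M.E \ (C ∪ D) := by
    rw [Matroid.delete_ground, Matroid.contract_ground, sdiff_sdiff]
  obtain ⟨S, T, ends, hST, hdis, hB, hG, hT, hr⟩ := conv hn h
  have hS : S ⊆ M.E \ (C ∪ D) := by
    rw [← hgr, ← hST]
    exact subset_union_left
  have hrS := rk_rect hB hG hn hn
  refine ⟨S, ends, hS, ?_, hG, ?_⟩
  · refine Bic_of_rk hB ?_ ?_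
    · intro s hs
      exact ⟨(hS hs).1, fun h => (hS hs).2 (Or.inl h)⟩
    · intro X hX
      symm
      apply rk_delete
      intro s hs
      exact ⟨⟨(hS (hX hs)).1, fun h => (hS (hX hs)).2 (Or.inl h)⟩,
        fun h => (hS (hX hs)).2 (Or.inr h)⟩
  · intro Q n' hQ hK X hSX hXQ
    by_contra hcon
    push Not at hcon
    have hXE : X ⊆ M.E := hXQ.trans sdiff_subset
    have h1 := lam_minor (M := M) (C := C) (D := D) (X := X) hC hXE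
    rw [hgr] at hr
    have h2 : rk (M ／ C ＼ D) S ≤ rk (M ／ C ＼ D) (X \ (C ∪ D)) :=
      rk_mono _ (fun s hs => ⟨hSX hs, (hS hs).2⟩)
    have hBT : (M.E \ (C ∪ D)) \ X ⊆ T := by
      intro x hx
      have : x ∈ S ∪ T := by rw [hST, hgr]; exact hx.1
      rcases this with h | h
      · exact absurd (hSX h) hx.2
      · exact h
    have h3 := rk_indep (hT.subset hBT)
    have hBf : ((M.E \ (C ∪ D)) \ X).Finite :=
      M.ground_finite.subset (sdiff_subset.trans sdiff_subset)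
    have h4 := hK (X ∪ (M.E \ (C ∪ D)) \ X) (by
      intro x hx
      by_cases h : x ∈ X
      · exact Or.inl h
      · exact Or.inr ⟨hx, h⟩) (by
      rintro x (hx | hx)
      · exact hXQ hx
      · exact ⟨hx.1.1, fun h => Set.disjoint_left.1 hQ hx.1 h⟩)
    have h5 : rk M (X ∪ (M.E \ (C ∪ D)) \ X) ≤ rk M X + ((M.E \ (C ∪ D)) \ X).ncard :=
      rk_union_le M hBf
    have h6 : rk M (M.E \ (X ∪ (M.E \ (C ∪ D)) \ X)) ≤ rk M (M.E \ X) :=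
      rk_mono M (fun x hx => ⟨hx.1, fun h => hx.2 (Or.inl h)⟩)
    omega

theorem HasUniformMinor.of_dual [M.Finite] {k : ℕ} (h : HasUniformMinor M✶ k) :
    HasUniformMinor M k := by
  obtain ⟨N, hN, hc, hb⟩ := h
  have hfin : N.E.Finite := M.ground_finite.subset hN.subset
  refine ⟨N✶, ?_, ?_, ?_⟩
  · have := minor_dual hN
    rwa [Matroid.dual_dual] at this
  · rw [Matroid.dual_ground]
    exact hc
  · intro B
    rw [Matroid.dual_ground, Matroid.dual_isBase_iff', hb]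
    constructor
    · rintro ⟨⟨_, h1⟩, h2⟩
      refine ⟨h2, ?_⟩
      have := Set.ncard_sdiff_add_ncard_of_subset h2 hfin
      omega
    · rintro ⟨h2, h1⟩
      refine ⟨⟨sdiff_subset, ?_⟩, h2⟩
      have := Set.ncard_sdiff_add_ncard_of_subset h2 hfin
      omega

/-- The defect over the partial contraction passes to subsets. -/
theorem defect_mono [M.Finite] {C C' E S : Set α} {q : ℕ} (hC : C ⊆ M.E) (hC' : C' ⊆ C)
    (hE : E ⊆ M.E \ C) (hS : S ⊆ E) (h : rk (M ／ C') E ≤ rk (M ／ C) E + q) :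
    rk (M ／ C') S ≤ rk (M ／ C) S + q := by
  have h1 := rk_contract_set (M := M) (C := C') (X := E) (hC'.trans hC)
    (fun x hx => ⟨(hE hx).1, fun h => (hE hx).2 (hC' h)⟩)
  have h2 := rk_contract_set (M := M) (C := C) (X := E) hC hE
  have h3 := rk_contract_set (M := M) (C := C') (X := S) (hC'.trans hC)
    (fun x hx => ⟨(hE (hS hx)).1, fun h => (hE (hS hx)).2 (hC' h)⟩)
  have h4 := rk_contract_set (M := M) (C := C) (X := S) hC (hS.trans hE)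
  have h5 := rk_submod M (E ∪ C') (S ∪ C)
  have h6 : rk M (S ∪ C') ≤ rk M ((E ∪ C') ∩ (S ∪ C)) := by
    refine rk_mono M ?_
    rintro x (hx | hx)
    · exact ⟨Or.inl (hS hx), Or.inl hx⟩
    · exact ⟨Or.inr hx, Or.inr (hC' hx)⟩
  have h7 : rk M (E ∪ C) ≤ rk M (E ∪ C' ∪ (S ∪ C)) := by
    refine rk_mono M ?_
    rintro x (hx | hx)
    · exact Or.inl (Or.inl hx)
    · exact Or.inr (Or.inr hx)
  omega

/-- At most `q` elements of `C` outside `C'` give a defect at most `q`. -/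
theorem defect_card [M.Finite] {C C' E : Set α} {q : ℕ} (hC : C ⊆ M.E) (hC' : C' ⊆ C)
    (hE : E ⊆ M.E \ C) (h : (C \ C').ncard ≤ q) :
    rk (M ／ C') E ≤ rk (M ／ C) E + q := by
  have h1 := rk_contract_set (M := M) (C := C') (X := E) (hC'.trans hC)
    (fun x hx => ⟨(hE hx).1, fun h => (hE hx).2 (hC' h)⟩)
  have h2 := rk_contract_set (M := M) (C := C) (X := E) hC hE
  have h3 : rk M (E ∪ C') ≤ rk M (E ∪ C) := rk_mono M (union_subset_union_right _ hC')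
  have h4 : rk M (C' ∪ C \ C') ≤ rk M C' + (C \ C').ncard :=
    rk_union_le M (M.ground_finite.subset (sdiff_subset.trans hC))
  rw [union_sdiff_cancel hC'] at h4
  omega

end general

/-! ### The hand-in layer of Theorem W+ -/

/-- Theorem W+ for plain grids. -/
def WPlain (k : ℕ) : Prop := ∀ q : ℕ, ∃ n₀ : ℕ, ∀ n ≥ n₀,
    ∀ {α : Type u} (M : Matroid α) [M.Finite] (E₁ E₂ C₁ D₂ : Set α)
    (e₁ e₂ : α → Sym2 (ℕ × ℕ)) (x y x' y' : ℕ),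
    E₁ ⊆ M.E → E₂ ⊆ M.E → Disjoint E₁ E₂ → C₁ ⊆ M.E \ E₁ → D₂ ⊆ M.E \ E₂ →
    Bic (M ／ C₁) E₁ e₁ → Grd E₁ e₁ x y n n →
    Bic (M✶ ／ D₂) E₂ e₂ → Grd E₂ e₂ x' y' n n →
    rk (M ／ (C₁ \ D₂)) E₁ ≤ rk (M ／ C₁) E₁ + q →
    KGe M E₁ E₂ n₀ → HasUniformMinor M k

/-- The first of the two dual forms. -/
theorem topW1 {k : ℕ} (hW : WPlain.{u} k) (q : ℕ) : ∃ n₀ : ℕ, ∀ n ≥ n₀,
    ∀ {α : Type u} (M : Matroid α) [M.Finite] (C₁ D₁ C₂ D₂ : Set α),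
    C₁ ⊆ M.E → D₂ ⊆ M.E → Disjoint (M.E \ (C₁ ∪ D₁)) (M.E \ (C₂ ∪ D₂)) →
    IsBicircular (M ／ C₁ ＼ D₁) (GPlus n) → IsBicircular (M✶ ／ D₂ ＼ C₂) (GPlus n) →
    rk (M ／ (C₁ \ D₂)) (M.E \ (C₁ ∪ D₁)) ≤ rk (M ／ C₁) (M.E \ (C₁ ∪ D₁)) + q →
    KGe M (M.E \ (C₁ ∪ D₁)) (M.E \ (C₂ ∪ D₂)) n₀ → HasUniformMinor M k := by
  obtain ⟨n₀, h₀⟩ := hW q
  refine ⟨4 * n₀ + 2, ?_⟩
  intro n hn α M _ C₁ D₁ C₂ D₂ hC₁ hD₂ hdis hb₁ hb₂ hdef hK
  obtain ⟨S₁, e₁, hS₁, hB₁, hG₁, hk₁⟩ := star1 (by omega) hC₁ hb₁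
  obtain ⟨S₂, e₂, hS₂, hB₂, hG₂, hk₂⟩ := star1 (M := M✶) (by omega) hD₂ hb₂
  rw [Matroid.dual_ground, union_comm D₂ C₂] at hS₂ hk₂
  have hE₁ : M.E \ (C₁ ∪ D₁) ⊆ M.E := sdiff_subset
  have hE₂ : M.E \ (C₂ ∪ D₂) ⊆ M.E := sdiff_subset
  have k1 : KGe M S₁ (M.E \ (C₂ ∪ D₂)) (2 * n₀) := by
    refine hk₁ _ _ hdis ?_
    intro X h1 h2
    have := hK X h1 h2
    omega
  have k2 : KGe M✶ S₂ S₁ n₀ := by
    refine hk₂ _ _ (hdis.symm.mono_right hS₁) ?_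
    exact k1.dual (hS₁.trans hE₁)
  have k3 : KGe M S₁ S₂ n₀ := by
    have := k2.dual (M := M✶) (hS₂.trans hE₂)
    rwa [Matroid.dual_dual] at this
  refine h₀ n (by omega) M S₁ S₂ C₁ D₂ e₁ e₂ 0 0 0 0 (hS₁.trans hE₁) (hS₂.trans hE₂)
    (hdis.mono hS₁ hS₂) ?_ ?_ hB₁ hG₁ hB₂ hG₂ ?_ k3
  · exact fun c hc => ⟨hC₁ hc, fun h => (hS₁ h).2 (Or.inl hc)⟩
  · exact fun d hd => ⟨hD₂ hd, fun h => (hS₂ h).2 (Or.inr hd)⟩
  · exact defect_mono hC₁ sdiff_subset (fun x hx => ⟨hx.1, fun h => hx.2 (Or.inl h)⟩) hS₁ hdef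

/-- Theorem W+ in terms of the graph `G_n^+`: the hypothesis on the defect, or its dual. -/
theorem topW {k : ℕ} (hW : WPlain.{u} k) (q : ℕ) : ∃ n₀ : ℕ, ∀ n ≥ n₀,
    ∀ {α : Type u} (M : Matroid α) [M.Finite] (C₁ D₁ C₂ D₂ : Set α),
    C₁ ⊆ M.E → D₂ ⊆ M.E → Disjoint (M.E \ (C₁ ∪ D₁)) (M.E \ (C₂ ∪ D₂)) →
    IsBicircular (M ／ C₁ ＼ D₁) (GPlus n) → IsBicircular (M✶ ／ D₂ ＼ C₂) (GPlus n) →
    (rk (M ／ (C₁ \ D₂)) (M.E \ (C₁ ∪ D₁)) ≤ rk (M ／ C₁) (M.E \ (C₁ ∪ D₁)) + q ∨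
      rk (M✶ ／ (D₂ \ C₁)) (M.E \ (C₂ ∪ D₂)) ≤ rk (M✶ ／ D₂) (M.E \ (C₂ ∪ D₂)) + q) →
    KGe M (M.E \ (C₁ ∪ D₁)) (M.E \ (C₂ ∪ D₂)) n₀ → HasUniformMinor M k := by
  obtain ⟨n₀, h₀⟩ := topW1 hW q
  refine ⟨n₀, ?_⟩
  intro n hn α M _ C₁ D₁ C₂ D₂ hC₁ hD₂ hdis hb₁ hb₂ hdef hK
  rcases hdef with hdef | hdef
  · exact h₀ n hn M C₁ D₁ C₂ D₂ hC₁ hD₂ hdis hb₁ hb₂ hdef hK
  · refine HasUniformMinor.of_dual ?_
    refine h₀ n hn M✶ D₂ C₂ D₁ C₁ hD₂ hC₁ ?_ hb₂ ?_ ?_ ?_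
    · rw [Matroid.dual_ground, union_comm D₂ C₂, union_comm D₁ C₁]
      exact hdis.symm
    · rw [Matroid.dual_dual]
      exact hb₁
    · rw [Matroid.dual_ground, union_comm D₂ C₂]
      exact hdef
    · rw [Matroid.dual_ground, union_comm D₂ C₂, union_comm D₁ C₁]
      exact hK.dual sdiff_subset

end BICS
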