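import Pool.Agent.Helper57.TB.ConvP
import Pool.Agent.Helper57.TB.Top

/-!
# The apex star costs a factor two, for `GrdP`
-/

open Set BIC
open scoped Matroid

namespace BICS

universe u

section starp

variable {α : Type*} {M : Matroid α} {C E S : Set α} {ends : α → Sym2 (ℕ × ℕ)} {w : ℕ × ℕ}
  {x y n : ℕ}

lemma ins_rect_union {S E : Set α} (hG : GrdP E S ends w x y n) :
    E ⊆ ins E ends (rect x y n n ∪ {w}) := by
  intro e he
  refine ⟨he, ?_⟩
  by_cases heS : e ∈ S
  · obtain ⟨p, q, h1, _, h3, h4⟩ := hG.grd.mem e heS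
    intro v hv
    rw [h1] at hv
    rcases Sym2.mem_iff.1 hv with rfl | rfl
    · exact Or.inl h3
    · exact Or.inl h4
  · obtain ⟨p, hp, h1⟩ := hG.star e ⟨he, heS⟩
    intro v hv
    rw [h1] at hv
    rcases Sym2.mem_iff.1 hv with rfl | rfl
    · exact Or.inl hp
    · exact Or.inr rfl

/-- The star edges are independent. -/
lemma star_indep {N : Matroid α} (hB : Bic N E ends) (hG : GrdP E S ends w x y n) :
    N.Indep (E \ S) := by
  classical
  have h : ∀ e ∈ E \ S, ∃ v, v ∈ rect x y n n ∧ ends e = s(v, w) := by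
    intro e he
    obtain ⟨v, h1, h2⟩ := hG.star e he
    exact ⟨v, h1, h2⟩
  choose! φ hφ using h
  refine hB.ind (E \ S) φ sdiff_subset ?_ ?_
  · intro a ha b hb hab
    apply hG.inj ha.1 hb.1
    rw [(hφ a ha).2, (hφ b hb).2, hab]
  · intro e he
    rw [(hφ e he).2]
    exact Sym2.mem_mk_left _ _

lemma rk_grdp_le {N : Matroid α} [N.Finite] (hB : Bic N E ends) (hG : GrdP E S ends w x y n) :
    rk N E ≤ n * n + 1 := by
  have h1 := (N.eRk_mono (ins_rect_union hG)).trans (hB.rk _)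
  have h2 : (rect x y n n ∪ {w}).encard ≤ (n * n + 1 : ℕ) := by
    refine (Set.encard_union_le _ _).trans ?_
    have h3 : (rect x y n n).encard ≤ (n * n : ℕ) := by
      have hsub : rect x y n n ⊆ ((((Finset.range n) ×ˢ (Finset.range n)).image
          (fun p => ((x + p.1, y + p.2) : ℕ × ℕ)) : Finset (ℕ × ℕ)) : Set (ℕ × ℕ)) := by
        rintro ⟨p, q⟩ ⟨h1, h2, h3, h4⟩
        simp only at h1 h2 h3 h4
        refine Finset.mem_coe.2 (Finset.mem_image.2 ⟨(p - x, q - y), ?_, ?_⟩)
        · rw [Finset.mem_product, Finset.mem_range, Finset.mem_range]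
          exact ⟨by simp only; omega, by simp only; omega⟩
        · simp only [Prod.mk.injEq]
          omega
      refine (Set.encard_le_encard hsub).trans ?_
      rw [Set.encard_coe_eq_coe_finsetCard]
      have h2 := Finset.card_image_le (s := (Finset.range n) ×ˢ (Finset.range n))
        (f := fun p => ((x + p.1, y + p.2) : ℕ × ℕ))
      rw [Finset.card_product, Finset.card_range] at h2
      exact_mod_cast h2
    rw [Set.encard_singleton]
    push_cast
    push_cast at h3
    gcongr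
  rw [← cast_rk] at h1
  exact_mod_cast h1.trans h2

/-- The apex star costs a factor two. -/
theorem star1P [M.Finite] (hn : 2 ≤ n) (hC : C ⊆ M.E) (hE : E ⊆ M.E \ C)
    (hB : Bic (M ／ C) E ends) (hG : GrdP E S ends w x y n) {Q : Set α} {n' : ℕ}
    (hQ : Disjoint E Q) (hK : KGe M E Q (2 * n')) : KGe M S Q n' := by
  have hfC : (M ／ C).Finite := ⟨M.ground_finite.subset sdiff_subset⟩
  set D : Set α := M.E \ (C ∪ E) with hD
  have hED : M.E \ (C ∪ D) = E := by
    ext e
    simp only [hD, mem_sdiff, mem_union]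
    constructor
    · rintro ⟨h1, h2⟩
      by_contra h3
      exact h2 (Or.inr ⟨h1, fun h => h.elim (fun h => h2 (Or.inl h)) h3⟩)
    · intro h
      refine ⟨(hE h).1, ?_⟩
      rintro (h1 | h1)
      · exact (hE h).2 h1
      · exact h1.2 (Or.inr h)
  have hrk : ∀ X ⊆ E, rk (M ／ C ＼ D) X = rk (M ／ C) X := by
    intro X hX
    apply rk_delete
    intro e he
    exact ⟨hE (hX he), fun h => h.2 (Or.inr (hX he))⟩
  have hrS := rk_rect (Bic_sub hB hG.sub) hG.grd hn hn
  have hrE := rk_grdp_le hB hG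
  intro X hSX hXQ
  by_contra hcon
  push Not at hcon
  have hXE : X ⊆ M.E := hXQ.trans sdiff_subset
  have h1 := lam_minor (M := M) (C := C) (D := D) (X := X) hC hXE
  have e1 : X \ (C ∪ D) ⊆ E := by
    rw [← hED]
    exact fun e he => ⟨hXE he.1, he.2⟩
  rw [hED, hrk _ e1, hrk _ sdiff_subset, hrk _ (Subset.refl _)] at h1
  have h2 : rk (M ／ C) S ≤ rk (M ／ C) (X \ (C ∪ D)) := by
    refine rk_mono _ (fun s hs => ⟨hSX hs, ?_⟩)
    rintro (h | h)
    · exact (hE (hG.sub hs)).2 h
    · exact h.2 (Or.inr (hG.sub hs))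
  have hBT : E \ X ⊆ E \ S := fun e he => ⟨he.1, fun h => he.2 (hSX h)⟩
  have h3 := rk_indep ((star_indep hB hG).subset hBT)
  have hBf : (E \ X).Finite := M.ground_finite.subset (fun e he => (hE he.1).1)
  have h4 := hK (X ∪ E \ X) (by
    intro e he
    by_cases h : e ∈ X
    · exact Or.inl h
    · exact Or.inr ⟨he, h⟩) (by
    rintro e (he | he)
    · exact hXQ he
    · exact ⟨(hE he.1).1, fun h => Set.disjoint_left.1 hQ he.1 h⟩)
  have h5 : rk M (X ∪ E \ X) ≤ rk M X + (E \ X).ncard := rk_union_le M hBf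
  have h6 : rk M (M.E \ (X ∪ E \ X)) ≤ rk M (M.E \ X) :=
    rk_mono M (fun e he => ⟨he.1, fun h => he.2 (Or.inl h)⟩)
  omega

/-- The whole ground set of the minor, as a grid with its apex star, over `M ／ C`. -/
theorem showP {α : Type u} {M : Matroid α} {n : ℕ} [M.Finite] {C D : Set α}
    (h : IsBicircular (M ／ C ＼ D) (GPlus n)) :
    ∃ (S : Set α) (ends : α → Sym2 (ℕ × ℕ)), Bic (M ／ C) (M.E \ (C ∪ D)) ends ∧
      GrdP (M.E \ (C ∪ D)) S ends (n, n) 0 0 n := by
  have hfC : (M ／ C).Finite := ⟨M.ground_finite.subset sdiff_subset⟩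
  have hf : (M ／ C ＼ D).Finite := ⟨M.ground_finite.subset (sdiff_subset.trans sdiff_subset)⟩
  have hgr : (M ／ C ＼ D).E = M.E \ (C ∪ D) := by
    rw [Matroid.delete_ground, Matroid.contract_ground, sdiff_sdiff]
  obtain ⟨S, ends, hB, hG⟩ := convP h
  rw [hgr] at hB hG
  refine ⟨S, ends, ?_, hG⟩
  refine Bic_of_rk hB ?_ ?_
  · intro s hs
    exact ⟨hs.1, fun h => hs.2 (Or.inl h)⟩
  · intro X hX
    symm
    apply rk_delete
    intro s hs
    exact ⟨⟨(hX hs).1, fun h => (hX hs).2 (Or.inl h)⟩, fun h => (hX hs).2 (Or.inr h)⟩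

end starp

end BICS
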