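import Pool.Agent.Helper57.TB.Conv2
import Pool.Agent.Helper57.TB.Top

/-!
# The hand-in layer of Theorem W-co
-/

open Set BIC
open scoped Matroid

namespace BICS

universe u

/-- Theorem W-co for grids with or without an apex. -/
def WcoPlain (k : ℕ) : Prop := ∀ q : ℕ, ∃ n₀ : ℕ, ∀ n ≥ n₀,
    ∀ {α : Type u} (M : Matroid α) [M.Finite] (E₁ E₂ C₁ D₂ : Set α)
    (e₁ e₂ : α → Sym2 (ℕ × ℕ)) (x y x' y' : ℕ) (ap ap' : ℕ × ℕ), E₁ ⊆ M.E → E₂ ⊆ M.E →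
    Disjoint E₁ E₂ → C₁ ⊆ M.E \ E₁ → D₂ ⊆ M.E \ E₂ → Bic (M ／ C₁) E₁ e₁ →
    SGrd E₁ e₁ x y n ap → Bic (M✶ ／ D₂) E₂ e₂ → SGrd E₂ e₂ x' y' n ap' →
    rk (M ／ C₁) E₁ ≤ rk (M ／ (C₁ ∪ (M.E \ (E₁ ∪ C₁ ∪ (E₂ ∪ D₂))))) E₁ + q →
    KGe M E₁ E₂ n₀ → HasUniformMinor M k

/-- The whole ground set of the minor, as a grid with its apex star, over `M ／ C`. -/
theorem show1 {α : Type u} {M : Matroid α} {n : ℕ} (hn : 2 ≤ n) [M.Finite] {C D : Set α}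
    (h : IsBicircular (M ／ C ＼ D) (GPlus n)) :
    ∃ ends : α → Sym2 (ℕ × ℕ), Bic (M ／ C) (M.E \ (C ∪ D)) ends ∧
      SGrd (M.E \ (C ∪ D)) ends 0 0 n (n, n) := by
  have hfC : (M ／ C).Finite := ⟨M.ground_finite.subset sdiff_subset⟩
  have hf : (M ／ C ＼ D).Finite := ⟨M.ground_finite.subset (sdiff_subset.trans sdiff_subset)⟩
  have hgr : (M ／ C ＼ D).E = M.E \ (C ∪ D) := by
    rw [Matroid.delete_ground, Matroid.contract_ground, sdiff_sdiff]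
  obtain ⟨ends, hB, hG⟩ := conv2S hn h
  rw [hgr] at hB hG
  refine ⟨ends, ?_, hG⟩
  refine Bic_of_rk hB ?_ ?_
  · intro s hs
    exact ⟨hs.1, fun h => hs.2 (Or.inl h)⟩
  · intro X hX
    symm
    apply rk_delete
    intro s hs
    exact ⟨⟨(hX hs).1, fun h => (hX hs).2 (Or.inl h)⟩, fun h => (hX hs).2 (Or.inr h)⟩

theorem topWco1 {k : ℕ} (hW : WcoPlain.{u} k) (q : ℕ) : ∃ n₀ : ℕ, ∀ n ≥ n₀,
    ∀ {α : Type u} (M : Matroid α) [M.Finite] (C₁ D₁ C₂ D₂ : Set α),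
    C₁ ⊆ M.E → D₂ ⊆ M.E → Disjoint C₁ D₁ → Disjoint C₂ D₂ →
    Disjoint (M.E \ (C₁ ∪ D₁)) (M.E \ (C₂ ∪ D₂)) →
    IsBicircular (M ／ C₁ ＼ D₁) (GPlus n) → IsBicircular (M✶ ／ D₂ ＼ C₂) (GPlus n) →
    rk (M ／ C₁) (M.E \ (C₁ ∪ D₁)) ≤ rk (M ／ (C₁ ∪ (D₁ ∩ C₂))) (M.E \ (C₁ ∪ D₁)) + q →
    KGe M (M.E \ (C₁ ∪ D₁)) (M.E \ (C₂ ∪ D₂)) n₀ → HasUniformMinor M k := by
  obtain ⟨n₀, h₀⟩ := hW q
  refine ⟨n₀ + 2, ?_⟩
  intro n hn α M _ C₁ D₁ C₂ D₂ hC₁ hD₂ hCD₁ hCD₂ hdis hb₁ hb₂ hdef hK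
  obtain ⟨e₁, hB₁, hG₁⟩ := show1 (by omega) hb₁
  obtain ⟨e₂, hB₂, hG₂⟩ := show1 (M := M✶) (by omega) hb₂
  rw [Matroid.dual_ground, union_comm D₂ C₂] at hB₂ hG₂
  refine h₀ n (by omega) M (M.E \ (C₁ ∪ D₁)) (M.E \ (C₂ ∪ D₂)) C₁ D₂ e₁ e₂ 0 0 0 0 _ _
    sdiff_subset sdiff_subset hdis ?_ ?_ hB₁ hG₁ hB₂ hG₂ ?_ ?_
  · exact fun c hc => ⟨hC₁ hc, fun h => h.2 (Or.inl hc)⟩
  · exact fun d hd => ⟨hD₂ hd, fun h => h.2 (Or.inr hd)⟩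
  · have e1 : M.E \ (M.E \ (C₁ ∪ D₁) ∪ C₁ ∪ (M.E \ (C₂ ∪ D₂) ∪ D₂)) = (D₁ ∩ C₂) ∩ M.E := by
      ext e
      simp only [mem_sdiff, mem_union, mem_inter_iff]
      constructor
      · rintro ⟨h1, h2⟩
        by_cases hc1 : e ∈ C₁
        · exact absurd (Or.inl (Or.inr hc1)) h2
        by_cases hd2 : e ∈ D₂
        · exact absurd (Or.inr (Or.inr hd2)) h2
        by_cases hd1 : e ∈ D₁
        · by_cases hc2 : e ∈ C₂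
          · exact ⟨⟨hd1, hc2⟩, h1⟩
          · exact absurd (Or.inr (Or.inl ⟨h1, fun h => h.elim hc2 hd2⟩)) h2
        · exact absurd (Or.inl (Or.inl ⟨h1, fun h => h.elim hc1 hd1⟩)) h2
      · rintro ⟨⟨hd1, hc2⟩, h1⟩
        refine ⟨h1, ?_⟩
        rintro ((⟨_, h3⟩ | h3) | (⟨_, h3⟩ | h3))
        · exact h3 (Or.inr hd1)
        · exact Set.disjoint_left.1 hCD₁ h3 hd1
        · exact h3 (Or.inl hc2)
        · exact Set.disjoint_left.1 hCD₂ hc2 h3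
    have e2 : M ／ (C₁ ∪ (D₁ ∩ C₂) ∩ M.E) = M ／ (C₁ ∪ (D₁ ∩ C₂)) := by
      rw [← Matroid.contract_inter_ground_eq M (C₁ ∪ (D₁ ∩ C₂)),
        ← Matroid.contract_inter_ground_eq M (C₁ ∪ (D₁ ∩ C₂) ∩ M.E)]
      congr 1
      ext e
      simp only [mem_inter_iff, mem_union]
      tauto
    rw [e1, e2]
    exact hdef
  · intro X h1 h2
    have := hK X h1 h2
    omega

/-- The hand-in layer of Theorem W-co: the hypothesis, or its dual. -/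
theorem topWco' {k : ℕ} (hW : WcoPlain.{u} k) (q : ℕ) : ∃ n₀ : ℕ, ∀ n ≥ n₀,
    ∀ {α : Type u} (M : Matroid α) [M.Finite] (C₁ D₁ C₂ D₂ : Set α),
    C₁ ⊆ M.E → D₂ ⊆ M.E → Disjoint C₁ D₁ → Disjoint C₂ D₂ →
    Disjoint (M.E \ (C₁ ∪ D₁)) (M.E \ (C₂ ∪ D₂)) →
    IsBicircular (M ／ C₁ ＼ D₁) (GPlus n) → IsBicircular (M✶ ／ D₂ ＼ C₂) (GPlus n) →
    (rk (M ／ C₁) (M.E \ (C₁ ∪ D₁)) ≤
        rk (M ／ (C₁ ∪ (D₁ ∩ C₂))) (M.E \ (C₁ ∪ D₁)) + q ∨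
      rk (M✶ ／ D₂) (M.E \ (C₂ ∪ D₂)) ≤
        rk (M✶ ／ (D₂ ∪ (D₁ ∩ C₂))) (M.E \ (C₂ ∪ D₂)) + q) →
    KGe M (M.E \ (C₁ ∪ D₁)) (M.E \ (C₂ ∪ D₂)) n₀ → HasUniformMinor M k := by
  obtain ⟨n₀, h₀⟩ := topWco1 hW q
  refine ⟨n₀, ?_⟩
  intro n hn α M _ C₁ D₁ C₂ D₂ hC₁ hD₂ hCD₁ hCD₂ hdis hb₁ hb₂ hdef hK
  rcases hdef with hdef | hdef
  · exact h₀ n hn M C₁ D₁ C₂ D₂ hC₁ hD₂ hCD₁ hCD₂ hdis hb₁ hb₂ hdef hK
  · refine HasUniformMinor.of_dual ?_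
    refine h₀ n hn M✶ D₂ C₂ D₁ C₁ hD₂ hC₁ hCD₂.symm hCD₁.symm ?_ hb₂ ?_ ?_ ?_
    · rw [Matroid.dual_ground, union_comm D₂ C₂, union_comm D₁ C₁]
      exact hdis.symm
    · rw [Matroid.dual_dual]
      exact hb₁
    · rw [Matroid.dual_ground, union_comm D₂ C₂, inter_comm C₂ D₁]
      exact hdef
    · rw [Matroid.dual_ground, union_comm D₂ C₂, union_comm D₁ C₁]
      exact hK.dual sdiff_subset

/-- The defect of the partial contraction of at most `q` elements. -/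
theorem codefect_card {α : Type u} {M : Matroid α} [M.Finite] {C D E : Set α} {q : ℕ}
    (hC : C ⊆ M.E) (hE : E ⊆ M.E \ (C ∪ D)) (h : (D ∩ M.E).ncard ≤ q) :
    rk (M ／ C) E ≤ rk (M ／ (C ∪ D)) E + q := by
  have e2 : M ／ (C ∪ D) = M ／ (C ∪ (D ∩ M.E)) := by
    rw [← Matroid.contract_inter_ground_eq M (C ∪ D),
      ← Matroid.contract_inter_ground_eq M (C ∪ D ∩ M.E)]
    congr 1
    ext e
    simp only [mem_inter_iff, mem_union]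
    tauto
  rw [e2]
  have hD : C ∪ (D ∩ M.E) ⊆ M.E := union_subset hC inter_subset_right
  have h1 := rk_contract_set (M := M) (C := C) (X := E) hC
    (fun x hx => ⟨(hE hx).1, fun h => (hE hx).2 (Or.inl h)⟩)
  have h2 := rk_contract_set (M := M) (C := C ∪ (D ∩ M.E)) (X := E) hD
    (fun x hx => ⟨(hE hx).1, fun h => (hE hx).2 (h.elim Or.inl (fun h' => Or.inr h'.1))⟩)
  have h3 : rk M (E ∪ C) ≤ rk M (E ∪ (C ∪ (D ∩ M.E))) :=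
    rk_mono M (union_subset_union_right _ subset_union_left)
  have h4 : rk M (C ∪ (D ∩ M.E)) ≤ rk M C + (D ∩ M.E).ncard :=
    rk_union_le M (M.ground_finite.subset inter_subset_right)
  omega

end BICS
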