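import Pool.Agent.Helper57.TB.ConvP
import Pool.Agent.Helper47.CO.Defs

/-!
# From `IsBicircular N (GPlus n)` to `SGrd`
-/

open Set BIC
open scoped Matroid

namespace BICS

universe u

theorem GrdP.ins_eq {α : Type*} {E S : Set α} {ends : α → Sym2 (ℕ × ℕ)} {w : ℕ × ℕ} {x y n : ℕ}
    (h : GrdP E S ends w x y n) : ins E ends (rect x y n n) = S := by
  ext e
  constructor
  · rintro ⟨he, he'⟩
    by_contra hcon
    obtain ⟨v, _, hv⟩ := h.star e ⟨he, hcon⟩
    exact h.out (he' w (by rw [hv]; exact Sym2.mem_mk_right _ _))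
  · intro he
    refine ⟨h.sub he, ?_⟩
    obtain ⟨p, q, h1, _, h3, h4⟩ := h.grd.mem e he
    intro v hv
    rw [h1] at hv
    rcases Sym2.mem_iff.1 hv with rfl | rfl <;> assumption

theorem GrdP.toSGrd {α : Type*} {E S : Set α} {ends : α → Sym2 (ℕ × ℕ)} {w : ℕ × ℕ} {x y n : ℕ}
    (h : GrdP E S ends w x y n) : SGrd E ends x y n w where
  inj := h.inj
  grd := by
    rw [h.ins_eq]
    exact h.grd
  nap := h.out
  out := by
    intro e he
    rw [h.ins_eq]
    by_cases heS : e ∈ S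
    · exact Or.inl heS
    · exact Or.inr (h.star e ⟨he, heS⟩)
  star := by
    rw [h.ins_eq]
    rcases h.all with h' | h'
    · left
      intro e he
      rwa [← h']
    · exact Or.inr h'

theorem conv2S {α : Type u} {n : ℕ} (_hn : 2 ≤ n) {N : Matroid α} [N.Finite]
    (h : IsBicircular N (GPlus n)) :
    ∃ ends : α → Sym2 (ℕ × ℕ), Bic N N.E ends ∧ SGrd N.E ends 0 0 n (n, n) := by
  obtain ⟨S, ends, hB, hG⟩ := convP h
  exact ⟨ends, hB, hG.toSGrd⟩

end BICS
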