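import Pool.Agent.BICS.Conv
import Pool.Agent.BICS.PGrid
import Pool.Agent.Helper21.STAR.Plus

/-!
# From `IsBicircular N (GPlus n)` to the grid with its apex star, on the whole ground set
-/

open Set BIC
open scoped Matroid

namespace BICS

universe u

theorem convP {α : Type u} {n : ℕ} {N : Matroid α} [N.Finite]
    (h : IsBicircular N (GPlus n)) :
    ∃ (S : Set α) (ends : α → Sym2 (ℕ × ℕ)), Bic N N.E ends ∧ GrdP N.E S ends (n, n) 0 0 n := by
  classical
  have h' : IsBicircular (N ↾ N.E) (GPlus n) := by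
    rw [Matroid.restrict_ground_eq_self]
    exact h
  obtain ⟨φ, ends, h1, hB⟩ := exists_bic (subset_refl N.E) h'
  obtain ⟨φ', hφ', hE', -⟩ := h
  -- the ground set is the image of the edge set
  have hinj : InjOn φ (GPlus n).edgeSet := by
    intro x hx y hy hxy
    rw [← (h1 x hx).2, ← (h1 y hy).2, hxy]
  have hEfin : N.E.Finite := N.ground_finite
  have hE : N.E = φ '' (GPlus n).edgeSet := by
    symm
    apply Set.eq_of_subset_of_ncard_le _ _ hEfin
    · rintro _ ⟨x, hx, rfl⟩
      exact (h1 x hx).1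
    · rw [hinj.ncard_image, hE', hφ'.ncard_image]
  have hx : ∀ e ∈ N.E, ends e ∈ (GPlus n).edgeSet ∧ φ (ends e) = e := by
    intro e he
    rw [hE] at he
    obtain ⟨x, hx, rfl⟩ := he
    rw [(h1 x hx).2]
    exact ⟨hx, rfl⟩
  have hends : InjOn ends N.E := by
    intro e he e' he' hee
    rw [← (hx e he).2, ← (hx e' he').2, hee]
  set S : Set α := {e | e ∈ N.E ∧ none ∉ ends e} with hS
  have memr : ∀ p : Fin n × Fin n, coord n (some p) ∈ rect 0 0 n n := by
    rintro ⟨⟨a, ha⟩, ⟨b, hb⟩⟩
    simp only [coord, rect, mem_ofPred_eq]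
    omega
  refine ⟨S, fun e => (ends e).map (coord n), Bic_map hB _ (coord_inj n).injOn, ?_, ?_, ?_, ?_, ?_,
    Or.inr ?_⟩
  · exact fun e he => he.1
  · refine ⟨?_, ?_, ?_⟩
    · intro e he e' he' hee
      exact hends he.1 he'.1 (Sym2.map.injective (coord_inj n) hee)
    · rintro e ⟨he, hne⟩
      have h2 := (hx e he).1
      revert hne h2
      generalize ends e = x
      induction x with
      | _ a b =>
        intro hne h2
        rw [Sym2.mem_iff, not_or] at hne
        rw [SimpleGraph.mem_edgeSet] at h2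
        rcases a with _ | p
        · exact absurd rfl hne.1
        rcases b with _ | q
        · exact absurd rfl hne.2
        refine ⟨coord n (some p), coord n (some q), rfl, ?_, memr p, memr q⟩
        rcases h2 with ⟨h3, h4⟩ | ⟨h3, h4⟩
        · left
          exact ⟨congrArg Fin.val h3, h4⟩
        · right
          exact ⟨congrArg Fin.val h3, h4⟩
    · rintro ⟨p1, p2⟩ ⟨q1, q2⟩ hpq hp hq
      simp only [rect, mem_ofPred_eq, zero_add, Nat.zero_le, true_and] at hp hq
      have hadj : (GPlus n).Adj (some (⟨p1, hp.1⟩, ⟨p2, hp.2⟩)) (some (⟨q1, hq.1⟩, ⟨q2, hq.2⟩)) := by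
        show gridAdj _ _
        rcases hpq with ⟨h3, h4⟩ | ⟨h3, h4⟩
        · left
          exact ⟨Fin.ext h3, h4⟩
        · right
          exact ⟨Fin.ext h3, h4⟩
      have hmem : s(some (⟨p1, hp.1⟩, ⟨p2, hp.2⟩), some (⟨q1, hq.1⟩, ⟨q2, hq.2⟩)) ∈
          (GPlus n).edgeSet := hadj
      obtain ⟨g1, g2⟩ := h1 _ hmem
      refine ⟨_, ⟨g1, ?_⟩, ?_⟩
      · rw [g2, Sym2.mem_iff]
        simp
      · simp only [g2]
        rfl
  · intro e he e' he' hee
    exact hends he he' (Sym2.map.injective (coord_inj n) hee)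
  · simp only [rect, mem_ofPred_eq]
    omega
  · rintro e ⟨he, hne⟩
    have hmem : none ∈ ends e := by
      by_contra hcon
      exact hne ⟨he, hcon⟩
    obtain ⟨v, hv⟩ := Sym2.mem_iff_exists.1 hmem
    have h3 := (hx e he).1
    rw [hv, SimpleGraph.mem_edgeSet] at h3
    rcases v with _ | p
    · exact absurd rfl h3.ne
    · refine ⟨coord n (some p), memr p, ?_⟩
      simp only [hv]
      rw [Sym2.eq_swap]
      rfl
  · rintro ⟨p1, p2⟩ hp
    simp only [rect, mem_ofPred_eq, zero_add, Nat.zero_le, true_and] at hp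
    have hadj : (GPlus n).Adj (some (⟨p1, hp.1⟩, ⟨p2, hp.2⟩)) none := trivial
    have hmem : s(some (⟨p1, hp.1⟩, ⟨p2, hp.2⟩), (none : Option (Fin n × Fin n))) ∈
        (GPlus n).edgeSet := hadj
    obtain ⟨g1, g2⟩ := h1 _ hmem
    refine ⟨_, g1, ?_⟩
    simp only [g2]
    rfl

end BICS
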