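import Pool.Agent.Helper57.TB.Top

/-!
# The statement of the hand-in on few conflicts, from Theorem W+ for plain grids
-/

open Set BIC
open scoped Matroid

namespace BICS

universe u

theorem few_conflicts {k : ℕ} (hW : WPlain.{u} k) (q : ℕ) : ∃ n : ℕ, ∀ (α : Type u)
    (M : Matroid α), M.Finite → ∀ C₁ D₁ C₂ D₂ : Set α,
    C₁ ⊆ M.E → D₁ ⊆ M.E → C₂ ⊆ M.E → D₂ ⊆ M.E → Disjoint C₁ D₁ → Disjoint C₂ D₂ →
    Disjoint (M ／ C₁ ＼ D₁).E (M ／ C₂ ＼ D₂).E →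
    IsBicircular (M ／ C₁ ＼ D₁) (GPlus n) →
    IsBicircular (M ／ C₂ ＼ D₂)✶ (GPlus n) →
    (∀ X : Set α, (M ／ C₁ ＼ D₁).E ⊆ X → X ⊆ M.E \ (M ／ C₂ ＼ D₂).E →
      (n : ℕ∞) + M.eRk M.E ≤ M.eRk X + M.eRk (M.E \ X)) →
    ((C₁ ∩ D₂).encard ≤ q ∨
      (M ／ (C₁ \ D₂)).eRk (M ／ C₁ ＼ D₁).E ≤ (M ／ C₁).eRk (M ／ C₁ ＼ D₁).E + q ∨
      (M✶ ／ (D₂ \ C₁)).eRk (M ／ C₂ ＼ D₂).E ≤ (M✶ ／ D₂).eRk (M ／ C₂ ＼ D₂).E + q) →
    ∃ N : Matroid α, N ≤m M ∧ N.E.ncard = 2 * k ∧ ∀ B, N.IsBase B ↔ B ⊆ N.E ∧ B.ncard = k := by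
  obtain ⟨n, h₀⟩ := topW hW q
  refine ⟨n, ?_⟩
  intro α M hM C₁ D₁ C₂ D₂ hC₁ _ _ hD₂ _ hCD₂ hdis hb₁ hb₂ hκ hdef
  have g₁ : (M ／ C₁ ＼ D₁).E = M.E \ (C₁ ∪ D₁) := by
    rw [Matroid.delete_ground, Matroid.contract_ground, sdiff_sdiff]
  have g₂ : (M ／ C₂ ＼ D₂).E = M.E \ (C₂ ∪ D₂) := by
    rw [Matroid.delete_ground, Matroid.contract_ground, sdiff_sdiff]
  have hd : (M ／ C₂ ＼ D₂)✶ = M✶ ／ D₂ ＼ C₂ := by
    rw [Matroid.dual_delete, Matroid.dual_contract, Matroid.contract_delete_comm _ hCD₂.symm]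
  rw [g₁, g₂] at hdis hκ hdef
  rw [hd] at hb₂
  refine h₀ n (le_refl _) M C₁ D₁ C₂ D₂ hC₁ hD₂ hdis hb₁ hb₂ ?_ ?_
  · have f1 : (M ／ (C₁ \ D₂)).Finite := ⟨M.ground_finite.subset sdiff_subset⟩
    have f2 : (M ／ C₁).Finite := ⟨M.ground_finite.subset sdiff_subset⟩
    have f3 : (M✶ ／ (D₂ \ C₁)).Finite := ⟨M✶.ground_finite.subset sdiff_subset⟩
    have f4 : (M✶ ／ D₂).Finite := ⟨M✶.ground_finite.subset sdiff_subset⟩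
    rcases hdef with h | h | h
    · left
      refine defect_card hC₁ sdiff_subset
        (fun x hx => ⟨hx.1, fun h => hx.2 (Or.inl h)⟩) ?_
      rw [sdiff_sdiff_right_self]
      have hf : (C₁ ∩ D₂).Finite := M.ground_finite.subset (inter_subset_left.trans hC₁)
      rw [← hf.cast_ncard_eq] at h
      exact_mod_cast h
    · left
      rw [← cast_rk, ← cast_rk] at h
      exact_mod_cast h
    · right
      rw [← cast_rk, ← cast_rk] at h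
      exact_mod_cast h
  · intro X h1 h2
    have h3 := hκ X h1 h2
    rw [← cast_rk, ← cast_rk, ← cast_rk] at h3
    exact_mod_cast h3

end BICS
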